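import Pool.Agent.W425.BF.Stm

/-!
BF-FIB (project BF, owner helper425): summation over the fibres in the direction `i`.
-/

set_option autoImplicit false

namespace Pool.Agent.W138.BF

open Pool.Agent.W425.BF
open Pool.Agent.W426.SM (gord face IsRay)
open Pool.Agent.W803.SM (filt mem_filt gord_le exists_gord summable_half)

variable {n k : ℕ}

theorem sum_upd (u : Fin n → ℕ) (i : Fin n) (hu : u i = 0) (a : ℕ) (g : Fin n → ℕ) :
    ∑ x, Function.update u i a x * g x = ∑ x, u x * g x + a * g i := by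
  have h : ∀ x, Function.update u i a x * g x = u x * g x + if x = i then a * g x else 0 := by
    intro x
    by_cases hx : x = i
    · subst hx; simp [hu]
    · simp [hx]
  simp_rw [h, Finset.sum_add_distrib]
  simp

theorem key_D (m : Fin k → Fin n → ℕ) (i : Fin n) (j0 : Fin k) (u : Fin n → ℕ)
    (hu : u i = 0) (a : ℕ) (l : Fin k) :
    ∑ x, (if x = i then 0 else ((m l x : ℤ) - m j0 x)) * ((Function.update u i a x : ℕ) : ℤ) =
      ((∑ x, u x * m l x : ℕ) : ℤ) - ((∑ x, u x * m j0 x : ℕ) : ℤ) := by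
  push_cast
  rw [← Finset.sum_sub_distrib]
  refine Finset.sum_congr rfl fun x _ => ?_
  by_cases hx : x = i
  · subst hx; simp [hu]
  · simp [hx]; ring

theorem mem_PA (m : Fin k → Fin n → ℕ) (i : Fin n) (j0 : Fin k) (h0 : m j0 i = 1)
    (u : Fin n → ℕ) (hu : u i = 0) (a : ℕ) :
    Function.update u i a ∈ PA m i j0 ↔
      (∀ j, j ≠ j0 → 1 ≤ m j i →
        ∑ x, u x * m j0 x + a + 1 ≤ ∑ x, u x * m j x + a * m j i) ∧
      (∀ j l, j ≠ j0 → 1 ≤ m j i → m l i = 0 → (1 : ℤ) ≤ ((m j i : ℤ) - 1) *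
        (((∑ x, u x * m l x : ℕ) : ℤ) - ((∑ x, u x * m j0 x : ℕ) : ℤ)) +
        (((∑ x, u x * m j x : ℕ) : ℤ) - ((∑ x, u x * m j0 x : ℕ) : ℤ))) ∧
      (∀ l, m l i = 0 → ∑ x, u x * m j0 x ≤ ∑ x, u x * m l x) := by
  have e1 : ∀ j, j ≠ j0 → 1 ≤ m j i →
      ∑ x, cf m i j0 (Sum.inl j) x * ((Function.update u i a x : ℕ) : ℤ) =
      ((∑ x, u x * m j x + a * m j i : ℕ) : ℤ) - ((∑ x, u x * m j0 x + a : ℕ) : ℤ) := by
    intro j hj hji
    have hc : ∀ x, cf m i j0 (Sum.inl j) x = (m j x : ℤ) - m j0 x := fun x => by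
      simp only [cf]; rw [if_pos ⟨hj, hji⟩]
    have s1 := sum_upd u i hu a (m j)
    have s2 := sum_upd u i hu a (m j0)
    rw [h0, mul_one] at s2
    rw [← s1, ← s2]
    push_cast
    rw [← Finset.sum_sub_distrib]
    refine Finset.sum_congr rfl fun x _ => ?_
    rw [hc]; ring
  have e2 : ∀ j l, j ≠ j0 → 1 ≤ m j i → m l i = 0 →
      ∑ x, cf m i j0 (Sum.inr (Sum.inl (j, l))) x * ((Function.update u i a x : ℕ) : ℤ) =
      ((m j i : ℤ) - 1) *
        (((∑ x, u x * m l x : ℕ) : ℤ) - ((∑ x, u x * m j0 x : ℕ) : ℤ)) +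
        (((∑ x, u x * m j x : ℕ) : ℤ) - ((∑ x, u x * m j0 x : ℕ) : ℤ)) := by
    intro j l hj hji hl
    have hc : ∀ x, cf m i j0 (Sum.inr (Sum.inl (j, l))) x =
        (if x = i then 0 else ((m j i : ℤ) - 1) * ((m l x : ℤ) - m j0 x) +
          ((m j x : ℤ) - m j0 x)) := fun x => by
      simp only [cf]; rw [if_pos ⟨hj, hji, hl⟩]
    rw [← key_D m i j0 u hu a l, ← key_D m i j0 u hu a j, Finset.mul_sum,
      ← Finset.sum_add_distrib]
    refine Finset.sum_congr rfl fun x _ => ?_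
    rw [hc]
    by_cases hx : x = i
    · simp [hx]
    · simp only [hx, if_false]; ring
  have e3 : ∀ l, m l i = 0 →
      ∑ x, cf m i j0 (Sum.inr (Sum.inr l)) x * ((Function.update u i a x : ℕ) : ℤ) =
      ((∑ x, u x * m l x : ℕ) : ℤ) - ((∑ x, u x * m j0 x : ℕ) : ℤ) := by
    intro l hl
    have hc : ∀ x, cf m i j0 (Sum.inr (Sum.inr l)) x =
        (if x = i then 0 else ((m l x : ℤ) - m j0 x)) := fun x => by
      simp only [cf]; rw [if_pos hl]
    rw [← key_D m i j0 u hu a l]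
    refine Finset.sum_congr rfl fun x _ => ?_
    rw [hc]
  constructor
  · intro h
    have h' : ∀ q, cd m i j0 q ≤ ∑ x, cf m i j0 q x * ((Function.update u i a x : ℕ) : ℤ) := h
    refine ⟨fun j hj hji => ?_, fun j l hj hji hl => ?_, fun l hl => ?_⟩
    · have h1 := h' (Sum.inl j)
      rw [e1 j hj hji] at h1
      have h2 : cd m i j0 (Sum.inl j) = 1 := by
        simp only [cd]; rw [if_pos ⟨hj, hji⟩]
      rw [h2] at h1
      omega
    · have h1 := h' (Sum.inr (Sum.inl (j, l)))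
      rw [e2 j l hj hji hl] at h1
      have h2 : cd m i j0 (Sum.inr (Sum.inl (j, l))) = 1 := by
        simp only [cd]; rw [if_pos ⟨hj, hji, hl⟩]
      rw [h2] at h1
      exact h1
    · have h1 := h' (Sum.inr (Sum.inr l))
      rw [e3 l hl] at h1
      have h2 : cd m i j0 (Sum.inr (Sum.inr l)) = 0 := by
        simp only [cd]
      rw [h2] at h1
      omega
  · rintro ⟨h1, h2, h3⟩
    show ∀ q, cd m i j0 q ≤ ∑ x, cf m i j0 q x * ((Function.update u i a x : ℕ) : ℤ)
    rintro (j | ⟨j, l⟩ | l)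
    · by_cases hc : j ≠ j0 ∧ 1 ≤ m j i
      · rw [e1 j hc.1 hc.2]
        have h4 : cd m i j0 (Sum.inl j) = 1 := by
          simp only [cd]; rw [if_pos hc]
        rw [h4]
        have := h1 j hc.1 hc.2
        omega
      · have h4 : cd m i j0 (Sum.inl j) = 0 := by
          simp only [cd]; rw [if_neg hc]
        have h5 : ∀ x, cf m i j0 (Sum.inl j) x = 0 := fun x => by
          simp only [cf]; rw [if_neg hc]
        rw [h4]; simp [h5]
    · by_cases hc : j ≠ j0 ∧ 1 ≤ m j i ∧ m l i = 0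
      · rw [e2 j l hc.1 hc.2.1 hc.2.2]
        have h4 : cd m i j0 (Sum.inr (Sum.inl (j, l))) = 1 := by
          simp only [cd]; rw [if_pos hc]
        rw [h4]
        exact h2 j l hc.1 hc.2.1 hc.2.2
      · have h4 : cd m i j0 (Sum.inr (Sum.inl (j, l))) = 0 := by
          simp only [cd]; rw [if_neg hc]
        have h5 : ∀ x, cf m i j0 (Sum.inr (Sum.inl (j, l))) x = 0 := fun x => by
          simp only [cf]; rw [if_neg hc]
        rw [h4]; simp [h5]
    · by_cases hc : m l i = 0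
      · rw [e3 l hc]
        have h4 : cd m i j0 (Sum.inr (Sum.inr l)) = 0 := by
          simp only [cd]
        rw [h4]
        have := h3 l hc
        omega
      · have h4 : cd m i j0 (Sum.inr (Sum.inr l)) = 0 := by
          simp only [cd]
        have h5 : ∀ x, cf m i j0 (Sum.inr (Sum.inr l)) x = 0 := fun x => by
          simp only [cf]; rw [if_neg hc]
        rw [h4]; simp [h5]

theorem gord_eq (m : Fin k → Fin n → ℕ) (u : Fin n → ℕ) (v : ℕ) (j : Fin k)
    (hj : ∑ x, u x * m j x = v) (h : ∀ l, v ≤ ∑ x, u x * m l x) : gord m u = v := by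
  refine le_antisymm (hj ▸ gord_le m u j) ?_
  obtain ⟨l, hl⟩ := exists_gord (lt_of_le_of_lt (Nat.zero_le _) j.2) m u
  rw [← hl]; exact h l

theorem norm_W2 {p : ℕ} (hp : 2 ≤ p) (c : Fin n → ℕ) (N : ℕ) {z t : ℂ} (hz : ‖z‖ ≤ 1)
    (ht : ‖t‖ ≤ 1) (u : Fin n → ℕ) : ‖W2 p c N z t u‖ ≤ ∏ x, ((1 : ℝ) / 2) ^ u x := by
  unfold W2
  rw [norm_mul, norm_mul, norm_pow, norm_pow, norm_pow, norm_inv, Complex.norm_natCast,
    Finset.prod_pow_eq_pow_sum]
  have h1 : ((p : ℝ))⁻¹ ≤ 1 / 2 := by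
    rw [one_div]
    exact inv_anti₀ (by norm_num) (by exact_mod_cast hp)
  have h2 : ((p : ℝ))⁻¹ ^ (∑ x, u x) ≤ (1 / 2 : ℝ) ^ (∑ x, u x) :=
    pow_le_pow_left₀ (by positivity) h1 _
  have h3 : ‖z‖ ^ (∑ x, c x * u x) ≤ 1 := pow_le_one₀ (norm_nonneg _) hz
  have h4 : ‖t‖ ^ N ≤ 1 := pow_le_one₀ (norm_nonneg _) ht
  calc ((p : ℝ))⁻¹ ^ (∑ x, u x) * ‖z‖ ^ (∑ x, c x * u x) * ‖t‖ ^ N
      ≤ (1 / 2 : ℝ) ^ (∑ x, u x) * 1 * 1 := by gcongr
    _ = (1 / 2 : ℝ) ^ (∑ x, u x) := by ring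

open Classical in
/-- left hand side -/
noncomputable def F1 (m : Fin k → Fin n → ℕ) (i : Fin n) (j0 : Fin k) (p : ℕ) (c : Fin n → ℕ)
    (γ : Finset (Fin k) → Polynomial ℂ) (z t : ℂ) (u : Fin n → ℕ) : ℂ :=
  if u ∈ PA m i j0 then W2 p c (gord m u) z t u * (γ (filt m u)).eval t else 0

open Classical in
/-- right hand side -/
noncomputable def F2 (m : Fin k → Fin n → ℕ) (i : Fin n) (j0 : Fin k) (p : ℕ) (c : Fin n → ℕ)
    (z t : ℂ) (u : Fin n → ℕ) : ℂ :=
  if u ∈ PA m i j0 then W2 p c (∑ x, u x * m j0 x) z t u else 0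

theorem summable_F1 (m : Fin k → Fin n → ℕ) (i : Fin n) (j0 : Fin k) {p : ℕ} (hp : 2 ≤ p)
    (c : Fin n → ℕ) (γ : Finset (Fin k) → Polynomial ℂ) {z t : ℂ} (hz : ‖z‖ ≤ 1)
    (ht : ‖t‖ ≤ 1) : Summable (F1 m i j0 p c γ z t) := by
  set M : ℝ := ∑ τ : Finset (Fin k), ‖(γ τ).eval t‖ with hM
  refine Summable.of_norm_bounded (g := fun u => (∏ x, ((1 : ℝ) / 2) ^ u x) * M)
    (summable_half.mul_right M) fun u => ?_
  have h1 : ‖(γ (filt m u)).eval t‖ ≤ M :=
    Finset.single_le_sum (f := fun τ : Finset (Fin k) => ‖(γ τ).eval t‖)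
      (fun τ _ => norm_nonneg _) (Finset.mem_univ _)
  have hM0 : 0 ≤ M := Finset.sum_nonneg fun τ _ => norm_nonneg _
  unfold F1
  split_ifs
  · rw [norm_mul]
    exact mul_le_mul (norm_W2 hp c _ hz ht u) h1 (norm_nonneg _) (by positivity)
  · rw [norm_zero]; positivity

theorem summable_F2 (m : Fin k → Fin n → ℕ) (i : Fin n) (j0 : Fin k) {p : ℕ} (hp : 2 ≤ p)
    (c : Fin n → ℕ) {z t : ℂ} (hz : ‖z‖ ≤ 1)
    (ht : ‖t‖ ≤ 1) : Summable (F2 m i j0 p c z t) := by
  refine Summable.of_norm_bounded (g := fun u => (∏ x, ((1 : ℝ) / 2) ^ u x))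
    summable_half fun u => ?_
  unfold F2
  split_ifs
  · exact norm_W2 hp c _ hz ht u
  · rw [norm_zero]; positivity

/-- the equivalence -/
def ee (i : Fin n) : ({j : Fin n // j ≠ i} → ℕ) × ℕ ≃ (Fin n → ℕ) :=
  (Equiv.prodComm _ _).trans (Equiv.funSplitAt i ℕ).symm

theorem ee_apply (i : Fin n) (v : {j : Fin n // j ≠ i} → ℕ) (a : ℕ) :
    ee i (v, a) = Function.update (ee i (v, 0)) i a := by
  funext x
  by_cases hx : x = i
  · subst hx
    simp [ee, Equiv.funSplitAt, Equiv.piSplitAt]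
  · simp [ee, Equiv.funSplitAt, Equiv.piSplitAt, hx]

theorem ee_zero (i : Fin n) (v : {j : Fin n // j ≠ i} → ℕ) : ee i (v, 0) i = 0 := by
  simp [ee, Equiv.funSplitAt, Equiv.piSplitAt]

theorem W2_upd (p : ℕ) (c : Fin n → ℕ) (i : Fin n) (hc : c i = 0) (z t : ℂ) (u : Fin n → ℕ)
    (hu : u i = 0) (a N : ℕ) : W2 p c N z t (Function.update u i a) =
      ((p : ℂ)⁻¹ ^ (∑ x, u x) * z ^ (∑ x, u x * c x)) * ((p : ℂ)⁻¹ ^ a * t ^ N) := by
  unfold W2
  have h1 := sum_upd u i hu a (fun _ => 1)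
  simp only [mul_one] at h1
  have h2 := sum_upd u i hu a c
  rw [hc, mul_zero, add_zero] at h2
  have h3 : ∑ x, c x * Function.update u i a x = ∑ x, u x * c x := by
    rw [← h2]; exact Finset.sum_congr rfl fun x _ => mul_comm _ _
  rw [h1, h3, pow_add]
  ring

theorem fib (m : Fin k → Fin n → ℕ) (i : Fin n) (j0 : Fin k) (h0 : m j0 i = 1) {p : ℕ}
    (hp : 2 ≤ p) (c : Fin n → ℕ) (hc : c i = 0) (E : ℂ) (γ : Finset (Fin k) → Polynomial ℂ)
    (hR : Rel m i p E γ) (z t : ℂ) (ht : ‖t‖ ≤ 1) (u : Fin n → ℕ) (hu : u i = 0)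
    (s1 : Summable fun a : ℕ => F1 m i j0 p c γ z t (Function.update u i a))
    (s2 : Summable fun a : ℕ => F2 m i j0 p c z t (Function.update u i a)) :
    ∑' a : ℕ, F1 m i j0 p c γ z t (Function.update u i a) =
      E * (1 - (p : ℂ)⁻¹ * t) * ∑' a : ℕ, F2 m i j0 p c z t (Function.update u i a) := by
  classical
  by_cases hne : ∃ a, Function.update u i a ∈ PA m i j0
  swap
  · have h1 : ∀ a, F1 m i j0 p c γ z t (Function.update u i a) = 0 := fun a => by
      unfold F1; exact if_neg fun h => hne ⟨a, h⟩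
    have h2 : ∀ a, F2 m i j0 p c z t (Function.update u i a) = 0 := fun a => by
      unfold F2; exact if_neg fun h => hne ⟨a, h⟩
    simp [h1, h2]
  obtain ⟨a0, ha0⟩ := hne
  obtain ⟨-, c2, c3⟩ := (mem_PA m i j0 h0 u hu a0).1 ha0
  have r1 : (γ {j0}).eval t = E * (1 - (p : ℂ)⁻¹ * t) := by
    rw [hR.1 j0 h0]; simp
  obtain ⟨P, hP⟩ : ∃ P : Fin k → ℕ, ∀ l, ∑ x, u x * m l x = P l := ⟨_, fun l => rfl⟩
  have ip : ∀ (a : ℕ) (l : Fin k), ∑ x, Function.update u i a x * m l x = P l + a * m l i :=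
    fun a l => by rw [sum_upd u i hu a (m l), hP]
  simp only [hP] at c2 c3
  obtain ⟨B, hB⟩ : ∃ B : ℂ, ((p : ℂ)⁻¹ ^ (∑ x, u x) * z ^ (∑ x, u x * c x)) = B := ⟨_, rfl⟩
  have v1 : ∀ (a N : ℕ) (τ : Finset (Fin k)), Function.update u i a ∈ PA m i j0 →
      gord m (Function.update u i a) = N → filt m (Function.update u i a) = τ →
      F1 m i j0 p c γ z t (Function.update u i a) =
        B * ((p : ℂ)⁻¹ ^ a * t ^ N) * (γ τ).eval t := by
    intro a N τ ha hN hτ
    unfold F1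
    rw [if_pos ha, hN, hτ, W2_upd p c i hc z t u hu, hB]
  have v2 : ∀ (a : ℕ), Function.update u i a ∈ PA m i j0 →
      F2 m i j0 p c z t (Function.update u i a) = B * ((p : ℂ)⁻¹ ^ a * t ^ (P j0 + a)) := by
    intro a ha
    unfold F2
    rw [if_pos ha, ip, h0, mul_one, W2_upd p c i hc z t u hu, hB]
  have c1 : ∀ a, Function.update u i a ∈ PA m i j0 → ∀ j, j ≠ j0 → 1 ≤ m j i →
      P j0 + a + 1 ≤ P j + a * m j i := by
    intro a ha j hj hji
    have := ((mem_PA m i j0 h0 u hu a).1 ha).1 j hj hji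
    simpa only [hP] using this
  have agree : ∀ a, Function.update u i a ∈ PA m i j0 →
      (∀ l, m l i = 0 → P j0 + a + 1 ≤ P l) →
      F1 m i j0 p c γ z t (Function.update u i a) =
        E * (1 - (p : ℂ)⁻¹ * t) * F2 m i j0 p c z t (Function.update u i a) := by
    intro a ha hlt
    have key : ∀ l, l ≠ j0 → P j0 + a + 1 ≤ P l + a * m l i := by
      intro l hl
      rcases Nat.eq_zero_or_pos (m l i) with h | h
      · have := hlt l h; omega
      · exact c1 a ha l hl h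
    have g1 : gord m (Function.update u i a) = P j0 + a := by
      refine gord_eq m _ _ j0 (by rw [ip, h0, mul_one]) fun l => ?_
      rw [ip]
      by_cases hl : l = j0
      · rw [hl, h0, mul_one]
      · have := key l hl; omega
    have g2 : filt m (Function.update u i a) = {j0} := by
      ext l
      rw [mem_filt, ip, g1, Finset.mem_singleton]
      constructor
      · intro h
        by_contra hl
        have := key l hl; omega
      · rintro rfl; rw [h0, mul_one]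
    rw [v1 a _ _ ha g1 g2, v2 a ha, r1]
    ring
  by_cases hl : ∃ l, m l i = 0
  swap
  · rw [← tsum_mul_left]
    refine tsum_congr fun a => ?_
    by_cases ha : Function.update u i a ∈ PA m i j0
    · exact agree a ha fun l h => absurd ⟨l, h⟩ hl
    · unfold F1 F2
      rw [if_neg ha, if_neg ha, mul_zero]
  obtain ⟨l0, hl0, hmin⟩ : ∃ l0, m l0 i = 0 ∧ ∀ l, m l i = 0 → P l0 ≤ P l := by
    obtain ⟨l1, hl1⟩ := hl
    obtain ⟨l0, h, h'⟩ := Finset.exists_min_image
      (Finset.univ.filter fun l : Fin k => m l i = 0) P ⟨l1, by simp [hl1]⟩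
    exact ⟨l0, (Finset.mem_filter.1 h).2, fun l hl => h' l (by simp [hl])⟩
  obtain ⟨K, hK⟩ : ∃ K, P l0 = P j0 + K := Nat.exists_eq_add_of_le (c3 l0 hl0)
  have hmem : ∀ a, K ≤ a → Function.update u i a ∈ PA m i j0 := by
    intro a ha
    rw [mem_PA m i j0 h0 u hu a]
    simp only [hP]
    refine ⟨fun j hj hji => ?_, c2, c3⟩
    have h1 := c2 j l0 hj hji hl0
    rw [hK] at h1
    obtain ⟨r, hr⟩ : ∃ r, m j i = r + 1 := ⟨m j i - 1, by omega⟩
    rw [hr] at h1 ⊢
    push_cast at h1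
    have h2 : r * K ≤ r * a := Nat.mul_le_mul_left r ha
    zify at h2 ⊢
    nlinarith
  obtain ⟨τ0, hτ0⟩ : ∃ τ : Finset (Fin k), ∀ l, l ∈ τ ↔ (m l i = 0 ∧ P l = P l0) :=
    ⟨Finset.univ.filter fun l => m l i = 0 ∧ P l = P l0, fun l => by simp⟩
  have gK : gord m (Function.update u i K) = P j0 + K := by
    refine gord_eq m _ _ j0 (by rw [ip, h0, mul_one]) fun l => ?_
    rw [ip]
    by_cases hl : l = j0
    · rw [hl, h0, mul_one]
    · rcases Nat.eq_zero_or_pos (m l i) with h | h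
      · have := hmin l h; omega
      · have := c1 K (hmem K le_rfl) l hl h; omega
  have fK : filt m (Function.update u i K) = insert j0 τ0 := by
    ext l
    rw [mem_filt, ip, gK, Finset.mem_insert, hτ0]
    constructor
    · intro h
      by_cases hl : l = j0
      · exact Or.inl hl
      · right
        rcases Nat.eq_zero_or_pos (m l i) with h' | h'
        · rw [h', mul_zero, add_zero] at h
          exact ⟨h', by omega⟩
        · have := c1 K (hmem K le_rfl) l hl h'; omega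
    · rintro (rfl | ⟨h1, h2⟩)
      · rw [h0, mul_one]
      · rw [h1, mul_zero, add_zero, h2, hK]
  have gA : ∀ a, K < a → gord m (Function.update u i a) = P j0 + K := by
    intro a ha
    refine gord_eq m _ _ l0 (by rw [ip, hl0, mul_zero, add_zero, hK]) fun l => ?_
    rw [ip]
    by_cases hl : l = j0
    · rw [hl, h0, mul_one]; omega
    · rcases Nat.eq_zero_or_pos (m l i) with h | h
      · have := hmin l h; omega
      · have := c1 a (hmem a ha.le) l hl h; omega
  have fA : ∀ a, K < a → filt m (Function.update u i a) = τ0 := by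
    intro a ha
    ext l
    rw [mem_filt, ip, gA a ha, hτ0]
    constructor
    · intro h
      by_cases hl : l = j0
      · rw [hl, h0, mul_one] at h; omega
      · rcases Nat.eq_zero_or_pos (m l i) with h' | h'
        · rw [h', mul_zero, add_zero] at h
          exact ⟨h', by omega⟩
        · have := c1 a (hmem a ha.le) l hl h'; omega
    · rintro ⟨h1, h2⟩
      rw [h1, mul_zero, add_zero, h2, hK]
  have r2 : ((p : ℂ) - 1) * (γ (insert j0 τ0)).eval t + (γ τ0).eval t = ((p : ℂ) - 1) * E := by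
    have h1 := congrArg (Polynomial.eval t) (hR.2 j0 τ0 h0 (fun l hl => ((hτ0 l).1 hl).1)
      ⟨l0, (hτ0 l0).2 ⟨hl0, rfl⟩⟩)
    simpa using h1
  have hp2 : (2 : ℝ) ≤ p := by exact_mod_cast hp
  have hq1 : ‖(p : ℂ)⁻¹‖ < 1 := by
    rw [norm_inv, Complex.norm_natCast]
    exact inv_lt_one_of_one_lt₀ (by linarith)
  have hq2 : ‖(p : ℂ)⁻¹ * t‖ < 1 := by
    rw [norm_mul]
    exact lt_of_le_of_lt (mul_le_of_le_one_right (norm_nonneg _) ht) hq1
  have hp0 : (p : ℂ) ≠ 0 := by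
    exact_mod_cast (by omega : p ≠ 0)
  have hp1 : (p : ℂ) - 1 ≠ 0 := by
    intro h
    have h1 : (p : ℂ) = ((1 : ℕ) : ℂ) := by push_cast; linear_combination h
    have h2 := Nat.cast_injective h1
    omega
  have t1 : ∑' b : ℕ, F1 m i j0 p c γ z t (Function.update u i (b + K)) =
      B * ((p : ℂ)⁻¹ ^ K * t ^ (P j0 + K)) * E := by
    have s1' := (summable_nat_add_iff K).2 s1
    rw [s1'.tsum_eq_zero_add]
    have e1 : F1 m i j0 p c γ z t (Function.update u i (0 + K)) =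
        B * ((p : ℂ)⁻¹ ^ K * t ^ (P j0 + K)) * (γ (insert j0 τ0)).eval t := by
      rw [zero_add]
      exact v1 K _ _ (hmem K le_rfl) gK fK
    have e2 : ∀ b : ℕ, F1 m i j0 p c γ z t (Function.update u i (b + 1 + K)) =
        (B * ((p : ℂ)⁻¹ ^ (K + 1) * t ^ (P j0 + K)) * (γ τ0).eval t) * (p : ℂ)⁻¹ ^ b := by
      intro b
      rw [v1 (b + 1 + K) _ _ (hmem _ (by omega)) (gA _ (by omega)) (fA _ (by omega))]
      rw [show b + 1 + K = b + (K + 1) by ring, pow_add]
      ring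
    rw [e1, tsum_congr e2, tsum_mul_left, tsum_geometric_of_norm_lt_one hq1]
    have e3 : (p : ℂ)⁻¹ * (1 - (p : ℂ)⁻¹)⁻¹ = ((p : ℂ) - 1)⁻¹ := by
      rw [← mul_inv]
      congr 1
      field_simp
    have e4 : (γ (insert j0 τ0)).eval t + (γ τ0).eval t * ((p : ℂ) - 1)⁻¹ = E := by
      field_simp
      linear_combination r2
    rw [← e3] at e4
    rw [pow_succ]
    linear_combination B * (p : ℂ)⁻¹ ^ K * t ^ (P j0 + K) * e4
  have t2 : ∑' b : ℕ, F2 m i j0 p c z t (Function.update u i (b + K)) =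
      B * ((p : ℂ)⁻¹ ^ K * t ^ (P j0 + K)) * (1 - (p : ℂ)⁻¹ * t)⁻¹ := by
    have e2 : ∀ b : ℕ, F2 m i j0 p c z t (Function.update u i (b + K)) =
        (B * ((p : ℂ)⁻¹ ^ K * t ^ (P j0 + K))) * ((p : ℂ)⁻¹ * t) ^ b := by
      intro b
      rw [v2 (b + K) (hmem _ (by omega))]
      rw [pow_add, show P j0 + (b + K) = P j0 + K + b by ring, pow_add t, mul_pow]
      ring
    rw [tsum_congr e2, tsum_mul_left, tsum_geometric_of_norm_lt_one hq2]
  have hne1 : (1 - (p : ℂ)⁻¹ * t) ≠ 0 := by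
    intro h
    have h1 : (p : ℂ)⁻¹ * t = 1 := by linear_combination -h
    rw [h1, norm_one] at hq2
    exact lt_irrefl _ hq2
  rw [← s1.sum_add_tsum_nat_add K, ← s2.sum_add_tsum_nat_add K, t1, t2, mul_add]
  congr 1
  · rw [Finset.mul_sum]
    refine Finset.sum_congr rfl fun a ha => ?_
    have haK : a < K := Finset.mem_range.1 ha
    by_cases ha : Function.update u i a ∈ PA m i j0
    · exact agree a ha fun l h => by have := hmin l h; omega
    · unfold F1 F2
      rw [if_neg ha, if_neg ha, mul_zero]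
  · rw [show ∀ r X : ℂ, E * r * (X * r⁻¹) = X * E * (r * r⁻¹) from fun r X => by ring,
      mul_inv_cancel₀ hne1, mul_one]

theorem main : TaskFIB := by
  classical
  intro n k m i j0 h0 p hp c hc E γ hR z t hz ht
  have hF1 := summable_F1 m i j0 hp c γ hz ht
  have hF2 := summable_F2 m i j0 hp c hz ht
  have e1 : ∑' u : PA m i j0, W2 p c (gord m u.1) z t u.1 * (γ (filt m u.1)).eval t =
      ∑' u, F1 m i j0 p c γ z t u := by
    rw [tsum_subtype (PA m i j0) (fun u => W2 p c (gord m u) z t u * (γ (filt m u)).eval t)]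
    refine tsum_congr fun u => ?_
    unfold F1
    rw [Set.indicator_apply]
  have e2 : ∑' u : PA m i j0, W2 p c (∑ x, u.1 x * m j0 x) z t u.1 =
      ∑' u, F2 m i j0 p c z t u := by
    rw [tsum_subtype (PA m i j0) (fun u => W2 p c (∑ x, u x * m j0 x) z t u)]
    refine tsum_congr fun u => ?_
    unfold F2
    rw [Set.indicator_apply]
  rw [e1, e2, ← (ee i).tsum_eq, ← (ee i).tsum_eq (F2 m i j0 p c z t)]
  have g1 : Summable fun x => F1 m i j0 p c γ z t (ee i x) := (ee i).summable_iff.2 hF1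
  have g2 : Summable fun x => F2 m i j0 p c z t (ee i x) := (ee i).summable_iff.2 hF2
  rw [g1.tsum_prod, g2.tsum_prod, ← tsum_mul_left]
  refine tsum_congr fun v => ?_
  have k1 := g1.prod_factor v
  have k2 := g2.prod_factor v
  have h1 : (fun a : ℕ => F1 m i j0 p c γ z t (ee i (v, a))) =
      fun a : ℕ => F1 m i j0 p c γ z t (Function.update (ee i (v, 0)) i a) :=
    funext fun a => by rw [← ee_apply]
  have h2 : (fun a : ℕ => F2 m i j0 p c z t (ee i (v, a))) =
      fun a : ℕ => F2 m i j0 p c z t (Function.update (ee i (v, 0)) i a) :=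
    funext fun a => by rw [← ee_apply]
  rw [h1] at k1
  rw [h2] at k2
  have h3 := fib m i j0 h0 hp c hc E γ hR z t ht _ (ee_zero i v) k1 k2
  rw [← h1, ← h2] at h3
  exact h3

end Pool.Agent.W138.BF
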